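import Mathlib
import Pool.Agent.Lib.MP_6d896a_gt.FP.SectionsFinal

/-!
The constant in the inequality conjectured by Kannan, Lovasz and Simonovits is, up to universal
factors, the same for a log-concave measure and for its central sections by parallel hyperplanes.
-/

set_option autoImplicit false

namespace Pool.Agent.Results.MP_6d896a_gt.CentralSections

open MeasureTheory

/-- `KLS μ κ`: all linear images of `μ` satisfy the Kannan-Lovasz-Simonovits inequality with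
constant `κ`, in the form of the frozen statement. -/
def KLS {E : Type} [AddCommGroup E] [Module ℝ E] [MeasurableSpace E] (μ : Measure E)
    (κ : ℝ) : Prop :=
  ∀ (n : ℕ) (T : E →ₗ[ℝ] EuclideanSpace ℝ (Fin n)) (s : ℝ), 0 < s →
    (∀ θ : EuclideanSpace ℝ (Fin n), ‖θ‖ = 1 →
      ProbabilityTheory.variance (fun x => inner ℝ x θ) (μ.map T) ≤ s) →
    ∀ S : Set (EuclideanSpace ℝ (Fin n)), MeasurableSet S →
      ENNReal.ofReal (κ / Real.sqrt s) * min (μ.map T S) (μ.map T Sᶜ) ≤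
        Filter.liminf
          (fun ε : ℝ => (μ.map T (Metric.thickening ε S) - μ.map T S) / ENNReal.ofReal ε)
          (nhdsWithin 0 (Set.Ioi 0))

/-- the law with density `ρ` with respect to Lebesgue measure, normalised -/
noncomputable def law {E : Type} [MeasureSpace E] (ρ : E → ℝ) : Measure E :=
  (∫⁻ x, ENNReal.ofReal (ρ x))⁻¹ •
    (volume : Measure E).withDensity (fun x => ENNReal.ofReal (ρ x))

/-- There is a universal `ε₀ > 0` such that for every `ε` in `(0, ε₀]` there is `c > 0` with the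
following property. Let `ρ` be a log-concave probability density on `ℝ × ℝ^n` (any `n`), with law
`μ`, and call `u` central if both half-spaces `{p | p.1 < u}` and `{p | u < p.1}` have measure at
least `ε`. Then for every `κ` in `(0, 1]`: if `μ` satisfies `KLS` with constant `κ` then the
normalised sections of `μ` over all central `u` satisfy `KLS` with constant `c κ`; and if these
sections satisfy `KLS` with constant `κ`, then `μ` satisfies `KLS` with constant `c κ`. -/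
theorem result :
    ∃ ε₀ : ℝ, 0 < ε₀ ∧ ∀ ε : ℝ, 0 < ε → ε ≤ ε₀ →
      ∃ c : ℝ, 0 < c ∧ ∀ (n : ℕ) (ρ : ℝ × (Fin n → ℝ) → ℝ),
        (∀ p, 0 ≤ ρ p) → Measurable ρ →
        (∀ p q (a b : ℝ), 0 < a → 0 < b → a + b = 1 → ρ p ^ a * ρ q ^ b ≤ ρ (a • p + b • q)) →
        ∫⁻ p, ENNReal.ofReal (ρ p) = 1 →
        ∀ κ : ℝ, 0 < κ → κ ≤ 1 →
          (KLS (law ρ) κ →
            ∀ u : ℝ, ENNReal.ofReal ε ≤ law ρ {p | p.1 < u} →
              ENNReal.ofReal ε ≤ law ρ {p | u < p.1} →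
              ∫⁻ x, ENNReal.ofReal (ρ (u, x)) ≠ 0 ∧ ∫⁻ x, ENNReal.ofReal (ρ (u, x)) ≠ ⊤ ∧
              KLS (law fun x => ρ (u, x)) (c * κ)) ∧
          ((∀ u : ℝ, ENNReal.ofReal ε ≤ law ρ {p | p.1 < u} →
              ENNReal.ofReal ε ≤ law ρ {p | u < p.1} → KLS (law fun x => ρ (u, x)) κ) →
            KLS (law ρ) (c * κ)) := by
  obtain ⟨ε₀, hε₀, -, c₁, hc₁, hup⟩ := Pool.Agent.Lib.MP_6d896a_gt.FP.sections_up
  refine ⟨ε₀, hε₀, fun ε hε hle => ?_⟩
  obtain ⟨c₂, hc₂, hdown⟩ := Pool.Agent.Lib.MP_6d896a_gt.FP.sections_down ε hε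
  refine ⟨min c₁ c₂, lt_min hc₁ hc₂, ?_⟩
  intro n ρ h0 hm hlc h1 κ hκ hκ1
  have hρ : Pool.Agent.Lib.MP_6d896a_gt.FP.LCd ρ := ⟨h0, hm, hlc⟩
  have hprob : IsProbabilityMeasure (Pool.Agent.Lib.MP_6d896a_gt.FP.dens ρ) :=
    Pool.Agent.Lib.MP_6d896a_gt.FP.dens_prob (by rw [h1]; exact one_ne_zero)
      (by rw [h1]; exact ENNReal.one_ne_top)
  have hreal : ∀ (δ : ℝ) (A : Set (ℝ × (Fin n → ℝ))), 0 < δ →
      (ENNReal.ofReal δ ≤ law ρ A ↔ δ ≤ (Pool.Agent.Lib.MP_6d896a_gt.FP.dens ρ).real A) := by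
    intro δ A hδ
    have : law ρ A = Pool.Agent.Lib.MP_6d896a_gt.FP.dens ρ A := rfl
    rw [this, ENNReal.ofReal_le_iff_le_toReal (measure_ne_top _ _)]
    rfl
  have hmono : ∀ (E : Type) [AddCommGroup E] [Module ℝ E] [MeasurableSpace E] (μ : Measure E)
      (a b : ℝ), a ≤ b → KLS μ b → KLS μ a := by
    intro E _ _ _ μ a b hab h m T s hs hvar S hS
    refine le_trans ?_ (h m T s hs hvar S hS)
    gcongr
  refine ⟨fun hK u hl hr => ?_, fun hK => ?_⟩
  · obtain ⟨a1, a2, a3⟩ := hdown n ρ hρ h1 κ hκ hκ1 hK u ((hreal ε _ hε).1 hl) ((hreal ε _ hε).1 hr)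
    exact ⟨a1, a2, hmono _ _ _ _ (mul_le_mul_of_nonneg_right (min_le_right _ _) hκ.le) a3⟩
  · refine hmono _ _ _ _ (mul_le_mul_of_nonneg_right (min_le_left _ _) hκ.le)
      (hup n ρ hρ h1 κ hκ hκ1 fun u hl hr => ?_)
    exact hK u ((hreal ε _ hε).2 (hle.trans hl)) ((hreal ε _ hε).2 (hle.trans hr))

end Pool.Agent.Results.MP_6d896a_gt.CentralSections
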