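import Mathlib
import Pool.Agent.Lib.MP_6d896a_gt.OM.Main
import Pool.Agent.Lib.MP_6d896a_gt.OM.Reindex
import Pool.Agent.Lib.MP_6d896a_gt.FP.ApCheeger

/-!
The inequality conjectured by Kannan, Lovasz and Simonovits, for all log-concave random matrices
`X` of size `m` times `n`, `n` at most `m`, whose law is invariant under `X ↦ U X`, `U` a
rotation, and for all their linear images.
-/

set_option autoImplicit false

namespace Pool.Agent.Results.MP_6d896a_gt.InvariantMatrices

open MeasureTheory

/-- There is a universal constant `C > 0` such that for all `n ≤ m`, every log-concave probability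
density `ρ` on the space of real `m × n` matrices with `ρ (U A) = ρ A` for all rotations
`U ∈ SO(m)`, and every linear map `L` from the space of matrices to some `ℝ^k`, the image `μ` under
`L` of the law with density `ρ` satisfies the Kannan-Lovasz-Simonovits inequality with
constant `C`. -/
theorem result :
    ∃ C : ℝ, 0 < C ∧ ∀ (m n : ℕ), n ≤ m → ∀ ρ : (Fin m → Fin n → ℝ) → ℝ,
      Measurable ρ → (∀ A, 0 ≤ ρ A) →
      (∀ (A B : Fin m → Fin n → ℝ) (a b : ℝ), 0 < a → 0 < b → a + b = 1 →
        ρ A ^ a * ρ B ^ b ≤ ρ (a • A + b • B)) →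
      (∀ U : Matrix (Fin m) (Fin m) ℝ, U.transpose * U = 1 → U.det = 1 →
        ∀ A : Fin m → Fin n → ℝ, ρ (fun i j => ∑ k, U i k * A k j) = ρ A) →
      ∫⁻ A, ENNReal.ofReal (ρ A) = 1 →
      ∀ (k : ℕ) (L : (Fin m → Fin n → ℝ) →ₗ[ℝ] EuclideanSpace ℝ (Fin k))
        (μ : Measure (EuclideanSpace ℝ (Fin k))),
        μ = (volume.withDensity fun A => ENNReal.ofReal (ρ A)).map L →
        ∀ s : ℝ, 0 < s →
          (∀ θ : EuclideanSpace ℝ (Fin k), ‖θ‖ = 1 →
            ProbabilityTheory.variance (fun x => inner ℝ x θ) μ ≤ s) →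
          ∀ S : Set (EuclideanSpace ℝ (Fin k)), MeasurableSet S →
            ENNReal.ofReal (C / Real.sqrt s) * min (μ S) (μ Sᶜ) ≤
              Filter.liminf
                (fun ε : ℝ => (μ (Metric.thickening ε S) - μ S) / ENNReal.ofReal ε)
                (nhdsWithin 0 (Set.Ioi 0)) :=
  Pool.Agent.Lib.MP_6d896a_gt.OM.kls_of_ap Pool.Agent.Lib.MP_6d896a_gt.OM.hmain
    Pool.Agent.Lib.MP_6d896a_gt.FP.ap_cheeger

end Pool.Agent.Results.MP_6d896a_gt.InvariantMatrices
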